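import Pool.Agent.Helper85.QT.St3

/-! QT MODULE LKG (project QT, MP_d112a4_gt): the contribution of a crossed lift. -/

set_option autoImplicit false

open MeasureTheory Matrix Set Topology
open scoped ENNReal ComplexConjugate

namespace Pool.Agent.Helper36.QT

open Pool.Agent.Helper85.QT Pool.Agent.Helper86.QA

theorem hLKG (hLKA : Pool.Agent.Helper85.QT.StLKA)
    (hLKB : Pool.Agent.Helper85.QT.StLKB) (hLKC : Pool.Agent.Helper85.QT.StLKC)
    (hLKD : Pool.Agent.Helper85.QT.StLKD) : Pool.Agent.Helper85.QT.StLKG := by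
  intro c0 hc0
  obtain ⟨CB, mB, hCB, HB⟩ := hLKB
  obtain ⟨CC, mC, hCC, HC⟩ := hLKC
  obtain ⟨CD, mD, hCD, HD⟩ := hLKD c0 hc0
  have hpi := Real.pi_pos
  refine ⟨3 * CB + 9216 * (CC + CC * CD) + 2 * Real.pi * CC, max 1 (max mB (max mC mD)),
    by positivity, ?_⟩
  intro Γ _ ρ A B α lam M G m φ C3 hA hCl hm μ0 μ hCof hμ0 a ha b hb ha0 hb0 hab
  obtain ⟨C, hC⟩ : ∃ C : ℝ, C = 3 * CB + 9216 * (CC + CC * CD) + 2 * Real.pi * CC := ⟨_, rfl⟩
  rw [← hC]
  have hm1 : 1 ≤ m := (le_max_left _ _).trans hm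
  have hmB : mB ≤ m := ((le_max_left _ _).trans (le_max_right _ _)).trans hm
  have hmC : mC ≤ m :=
    (((le_max_left _ _).trans (le_max_right _ _)).trans (le_max_right _ _)).trans hm
  have hmD : mD ≤ m :=
    (((le_max_right _ _).trans (le_max_right _ _)).trans (le_max_right _ _)).trans hm
  have hm0 : 0 < m := by linarith
  obtain ⟨d, hd⟩ : ∃ d : ℝ, d = fd lam a b := ⟨_, rfl⟩
  have hd0 : 0 ≤ d := by
    rw [hd]
    unfold fd
    positivity
  obtain ⟨L, hL⟩ : ∃ L : ℝ, L = 1 + |Real.log (‖a‖ / ‖b‖)| := ⟨_, rfl⟩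
  have hL1 : 1 ≤ L := by
    rw [hL]
    linarith [abs_nonneg (Real.log (‖a‖ / ‖b‖))]
  have hom : om lam m a b = min 1 ((1 + d) ^ 2 / m ^ 2) * L := by
    unfold om
    rw [← hd, ← hL]
  rcases le_or_gt d (m / 96) with hc | hc
  · have h1 := HB Γ ρ A B α lam M G m φ C3 hA hmB a ha b hb ha0 hb0 (by rw [← hd]; exact hc)
    rw [← hd] at h1
    have h2 := hLKA Γ ρ A B α lam M G m φ C3 hA hCl μ0 μ hCof hμ0 a ha b hb ha0 hb0 hab
    have hmin : d ^ 2 / m ^ 2 ≤ min 1 ((1 + d) ^ 2 / m ^ 2) := by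
      apply le_min
      · rw [div_le_one (by positivity)]
        exact pow_le_pow_left₀ hd0 (by linarith) 2
      · apply div_le_div_of_nonneg_right _ (by positivity)
        exact pow_le_pow_left₀ hd0 (by linarith) 2
    have hmin0 : 0 ≤ d ^ 2 / m ^ 2 := by positivity
    have h3 : d ^ 2 / m ^ 2 ≤ om lam m a b := by
      rw [hom]
      exact hmin.trans (le_mul_of_one_le_right (hmin0.trans hmin) hL1)
    have h4 : 3 * (CB * d ^ 2 / m ^ 2) ≤ C * om lam m a b := by
      have h5 : 3 * (CB * d ^ 2 / m ^ 2) = 3 * CB * (d ^ 2 / m ^ 2) := by ring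
      rw [h5]
      apply mul_le_mul _ h3 hmin0 (by rw [hC]; positivity)
      rw [hC]
      have : 0 ≤ 9216 * (CC + CC * CD) + 2 * Real.pi * CC := by positivity
      linarith
    calc ENNReal.ofReal ‖∫ ξ in EE lam G φ 0 m, μ ξ * th a b ξ‖ ≤
          3 * ∫⁻ ξ in EE lam G φ (m / 3) (2 * m / 3), ENNReal.ofReal ‖th a b ξ‖ := h2
      _ ≤ 3 * ENNReal.ofReal (CB * d ^ 2 / m ^ 2) := by gcongr
      _ = ENNReal.ofReal (3 * (CB * d ^ 2 / m ^ 2)) := by
          rw [ENNReal.ofReal_mul (by norm_num)]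
          norm_num
      _ ≤ ENNReal.ofReal (C * om lam m a b) := ENNReal.ofReal_le_ofReal h4
      _ ≤ _ := le_self_add
  · have h1 := HC Γ ρ A B α lam M G m φ C3 hA hCl hmC μ0 μ hCof hμ0 a ha b hb ha0 hb0 hab
    have h2 := HD Γ ρ A B α lam M G m φ C3 hA hmD a ha b hb ha0 hb0 hab
    rw [← hL] at h1
    have hmin : 1 / 9216 ≤ min 1 ((1 + d) ^ 2 / m ^ 2) := by
      apply le_min (by norm_num)
      rw [le_div_iff₀ (by positivity)]
      have h3 : (m / 96) ^ 2 ≤ (1 + d) ^ 2 := pow_le_pow_left₀ (by positivity) (by linarith) 2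
      have h4 : (m / 96) ^ 2 = 1 / 9216 * m ^ 2 := by ring
      rw [← h4]
      exact h3
    have h3 : L ≤ 9216 * om lam m a b := by
      rw [hom]
      have h4 : 1 / 9216 * L ≤ min 1 ((1 + d) ^ 2 / m ^ 2) * L :=
        mul_le_mul_of_nonneg_right hmin (by linarith)
      linarith
    have h4 : CC * L + CC / m ^ 2 * CD ≤ C * om lam m a b := by
      have hom0 : 0 ≤ om lam m a b := by linarith
      have h5 : CC / m ^ 2 ≤ CC := div_le_self hCC.le (one_le_pow₀ hm1)
      have h6 : CC / m ^ 2 * CD ≤ CC * CD := mul_le_mul_of_nonneg_right h5 hCD.le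
      have h7 : CC * CD ≤ CC * CD * L := le_mul_of_one_le_right (by positivity) hL1
      have h8 : (CC + CC * CD) * L ≤ (CC + CC * CD) * (9216 * om lam m a b) :=
        mul_le_mul_of_nonneg_left h3 (by positivity)
      have h9 : (CC + CC * CD) * (9216 * om lam m a b) ≤ C * om lam m a b := by
        have h10 : (CC + CC * CD) * (9216 * om lam m a b) =
            9216 * (CC + CC * CD) * om lam m a b := by ring
        rw [h10]
        apply mul_le_mul_of_nonneg_right _ hom0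
        rw [hC]
        have : 0 ≤ 3 * CB + 2 * Real.pi * CC := by positivity
        linarith
      linarith
    have h5 : CC / m ^ 2 * (2 * Real.pi) ≤ C / m ^ 2 := by
      have h6 : CC / m ^ 2 * (2 * Real.pi) = 2 * Real.pi * CC / m ^ 2 := by ring
      rw [h6]
      apply div_le_div_of_nonneg_right _ (by positivity)
      rw [hC]
      have : 0 ≤ 3 * CB + 9216 * (CC + CC * CD) := by positivity
      linarith
    have hq : 0 ≤ CC / m ^ 2 := by positivity
    calc ENNReal.ofReal ‖∫ ξ in EE lam G φ 0 m, μ ξ * th a b ξ‖ ≤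
          ENNReal.ofReal (CC * L) + ENNReal.ofReal (CC / m ^ 2) *
            ∫⁻ ξ in EE lam G φ (m / 3) (2 * m / 3), ENNReal.ofReal ‖th a b ξ‖ := h1
      _ ≤ ENNReal.ofReal (CC * L) + ENNReal.ofReal (CC / m ^ 2) * (ENNReal.ofReal CD +
            ENNReal.ofReal (2 * Real.pi) * volume {u : ℝ | 2 * c0 < TT lam (gp a b u)}) := by
          gcongr
      _ = ENNReal.ofReal (CC * L + CC / m ^ 2 * CD) +
            ENNReal.ofReal (CC / m ^ 2 * (2 * Real.pi)) *
              volume {u : ℝ | 2 * c0 < TT lam (gp a b u)} := by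
          rw [ENNReal.ofReal_add (by positivity) (by positivity), ENNReal.ofReal_mul hq,
            ENNReal.ofReal_mul hq, mul_add, add_assoc, mul_assoc]
      _ ≤ _ := add_le_add (ENNReal.ofReal_le_ofReal h4)
          (mul_le_mul_left (ENNReal.ofReal_le_ofReal h5) _)

end Pool.Agent.Helper36.QT
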