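import Pool.Agent.Helper85.QT.St1

/-! QT MODULE SH6 (project QT, MP_d112a4_gt): volume of the half shell. -/

set_option autoImplicit false

open MeasureTheory Matrix Set Topology
open scoped ENNReal ComplexConjugate

namespace Pool.Agent.Helper36.QT

open Pool.Agent.Helper85.QT Pool.Agent.Helper86.QA

theorem hSH6 (hSW0 : Pool.Agent.Helper86.QA.StSW0) (hACU : Pool.Agent.Helper86.QA.StACU)
    (hSH1 : Pool.Agent.Helper85.QT.StSH1) (hSH3 : Pool.Agent.Helper85.QT.StSH3)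
    (hSH4 : Pool.Agent.Helper85.QT.StSH4) (hSH5 : Pool.Agent.Helper85.QT.StSH5)
    (hSB4 : Pool.Agent.Helper85.QT.StSB4) : Pool.Agent.Helper85.QT.StSH6 := by
  classical
  intro Γ _ ρ σ A B F hK hF D DA hD hDA S hS
  obtain ⟨hcount, hau, -⟩ := hACU Γ ρ A B hK
  obtain ⟨-, hab, hsf⟩ := hSH5 Γ ρ σ A B F hK hF
  obtain ⟨hZm, hZi⟩ := hSH1 Γ ρ A B hK S
  obtain ⟨-, -, -, hSm⟩ := hSB4 Γ ρ A B hK
  set μA : Measure ℂ :=
    ((volume : Measure ℂ).restrict A).withDensity (fun ξ => ENNReal.ofReal (rX F ξ)) with hμA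
  obtain ⟨h, hh⟩ : ∃ h : Pt → ℂ → ℝ≥0∞, h = fun x ξ => (ZZ A B S).indicator (fun _ => 1) (x, ξ) :=
    ⟨_, rfl⟩
  have hA : MeasurableSet A := hab.mS
  have hmeas : Measurable (fun p : Pt × ℂ => h p.1 p.2) := by
    rw [hh]
    exact measurable_const.indicator hZm
  have hinv : ∀ (γ : Γ), ∀ x ∈ up, ∀ y ∈ A, h (au ρ γ x) (ab ρ γ y) = h x y := by
    intro γ x hx y hy
    have hiff : (au ρ γ x, ab ρ γ y) ∈ ZZ A B S ↔ (x, y) ∈ ZZ A B S := by
      constructor
      · intro h1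
        have h2 := hZi γ⁻¹ (au ρ γ x) (ab ρ γ y) h1
        have h3 : ga (ρ γ⁻¹) (au ρ γ x) = x := by
          have h4 := hau.mul γ⁻¹ γ x hx
          rw [inv_mul_cancel, hau.one x hx] at h4
          exact h4.symm
        have h5 : mb (ρ γ⁻¹) (ab ρ γ y) = y := by
          have h4 := hab.mul γ⁻¹ γ y hy
          rw [inv_mul_cancel, hab.one y hy] at h4
          exact h4.symm
        rw [h3, h5] at h2
        exact h2
      · intro h1
        exact hZi γ x y h1
    rw [hh]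
    by_cases hc : (x, y) ∈ ZZ A B S
    · simp only [indicator_of_mem hc, indicator_of_mem (hiff.2 hc)]
    · simp only [indicator_of_notMem hc, indicator_of_notMem (fun h1 => hc (hiff.1 h1))]
  have key := hSW0 Γ Pt ℂ (au ρ) (ab ρ) up D A DA vol μA h hau hab hD hDA hmeas hinv
  -- right side
  have hR : ∫⁻ x, ∫⁻ y in DA, h x y ∂μA ∂vol ≤
      ENNReal.ofReal (4 * Real.pi * Real.log (4 * S + 6)) *
        ∫⁻ ξ in DA, ENNReal.ofReal (rX F ξ) := by
    have h1 : ∫⁻ x, ∫⁻ y in DA, h x y ∂μA ∂vol = ∫⁻ y in DA, ∫⁻ x, h x y ∂vol ∂μA :=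
      lintegral_lintegral_swap hmeas.aemeasurable
    rw [h1]
    calc ∫⁻ y in DA, ∫⁻ x, h x y ∂vol ∂μA ≤
        ∫⁻ _ in DA, ENNReal.ofReal (4 * Real.pi * Real.log (4 * S + 6)) ∂μA := by
          apply setLIntegral_mono' hDA.mD
          intro y hy
          have h2 : ∫⁻ x, h x y ∂vol = vol {x : Pt | (x, y) ∈ ZZ A B S} := by
            have hm : MeasurableSet {x : Pt | (x, y) ∈ ZZ A B S} :=
              measurable_prodMk_right hZm
            rw [← lintegral_indicator_one hm]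
            apply lintegral_congr
            intro x
            rw [hh]
            rfl
          rw [h2]
          exact hSH4 Γ ρ A B hK S hS y (hDA.sub hy)
      _ = ENNReal.ofReal (4 * Real.pi * Real.log (4 * S + 6)) * μA DA := by
          rw [setLIntegral_const]
      _ = ENNReal.ofReal (4 * Real.pi * Real.log (4 * S + 6)) *
        ∫⁻ ξ in DA, ENNReal.ofReal (rX F ξ) := by
          rw [hμA, withDensity_apply _ hDA.mD, Measure.restrict_restrict hDA.mD,
            inter_eq_self_of_subset_left hDA.sub]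
  -- left side
  obtain ⟨V, hV⟩ : ∃ V : Set Pt, V = {x : Pt | x ∈ up ∧ sb A B x ≤ S ∧
        ∃ (c : ℂ) (r : ℝ), 0 < r ∧ ‖x.1 - c‖ ^ 2 + x.2 ^ 2 < r ^ 2 ∧ Metric.ball c r ⊆ A} := ⟨_, rfl⟩
  have hVm : MeasurableSet V := by
    have e1 : V = {x : Pt | x ∈ up ∧ sb A B x ≤ S} ∩
        ⋃ (c : ℂ), ⋃ (r : ℝ), ⋃ (_ : 0 < r ∧ Metric.ball c r ⊆ A),
          {x : Pt | ‖x.1 - c‖ ^ 2 + x.2 ^ 2 < r ^ 2} := by
      rw [hV]
      ext x
      simp only [mem_ofPred_eq, mem_inter_iff, mem_iUnion]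
      constructor
      · rintro ⟨h1, h2, c, r, h3, h4, h5⟩
        exact ⟨⟨h1, h2⟩, c, r, ⟨h3, h5⟩, h4⟩
      · rintro ⟨⟨h1, h2⟩, c, r, ⟨h3, h5⟩, h4⟩
        exact ⟨h1, h2, c, r, h3, h4, h5⟩
    rw [e1]
    refine (hSm S).inter (IsOpen.measurableSet ?_)
    refine isOpen_iUnion fun c => isOpen_iUnion fun r => isOpen_iUnion fun _ => ?_
    exact isOpen_lt (by fun_prop) continuous_const
  have hL : ENNReal.ofReal (1 / (128 * (S + 2) ^ 2)) * vol (D ∩ V) ≤
      ∫⁻ x in D, ∫⁻ y, h x y ∂μA ∂vol := by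
    calc ENNReal.ofReal (1 / (128 * (S + 2) ^ 2)) * vol (D ∩ V) =
        ∫⁻ _ in D ∩ V, ENNReal.ofReal (1 / (128 * (S + 2) ^ 2)) ∂vol := by
          rw [setLIntegral_const]
      _ ≤ ∫⁻ x in D ∩ V, ∫⁻ y, h x y ∂μA ∂vol := by
          apply setLIntegral_mono' (hD.mD.inter hVm)
          intro x hx
          have hx2 := hx.2
          rw [hV] at hx2
          obtain ⟨h1, h2, h3⟩ := hx2
          have h4 := hSH3 Γ ρ σ A B F hK hF S hS x h1 h2 h3
          refine h4.trans (le_of_eq ?_)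
          have hm : MeasurableSet {ξ : ℂ | (x, ξ) ∈ ZZ A B S} := measurable_prodMk_left hZm
          have hsub : {ξ : ℂ | (x, ξ) ∈ ZZ A B S} ⊆ A := fun ξ hξ => hξ.2.1
          have h5 : ∫⁻ y, h x y ∂μA = μA {ξ : ℂ | (x, ξ) ∈ ZZ A B S} := by
            rw [← lintegral_indicator_one hm]
            apply lintegral_congr
            intro y
            rw [hh]
            rfl
          rw [h5, hμA, withDensity_apply _ hm, Measure.restrict_restrict hm,
            inter_eq_self_of_subset_left hsub]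
      _ ≤ ∫⁻ x in D, ∫⁻ y, h x y ∂μA ∂vol := lintegral_mono_set inter_subset_left
  rw [← hV]
  exact hL.trans (key.le.trans hR)

end Pool.Agent.Helper36.QT
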