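import Pool.Agent.Helper69.QT.St

/-! QT MODULE VEQ (project QD, theorem T1, MP_d112a4_gt): the defect is at most a constant times the
square of the energy. -/

set_option autoImplicit false

open MeasureTheory Set Filter Topology Complex
open scoped ENNReal ComplexConjugate

namespace Pool.Agent.Helper36.QT

open Pool.Agent.Helper69.QT
open Pool.Agent.Helper68.QC (Bel InvB Intw nq)
open Pool.Agent.Helper61.QE (Dx En)
open Pool.Agent.Helper35.PM (SL Mat SurfaceGroup IsQF ent hs limitSet)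
open Pool.Agent.Helper86.QA (FDOn ad ar2 TM)
open Pool.Agent.Helper20.QD (Fuch IsSU mob den Good Lam inn out)
open Pool.Agent.Helper69.QC (vv)

private theorem den_ne (A : SL) (hA : IsSU A) (z : ℂ) (hz : ‖z‖ < 1) : den A z ≠ 0 := by
  have h2 : (A : Mat) 1 1 = conj ((A : Mat) 0 0) := hA.1
  have h3 : (A : Mat) 1 0 = conj ((A : Mat) 0 1) := hA.2
  have hdet : ‖(A : Mat) 0 0‖ ^ 2 - ‖(A : Mat) 0 1‖ ^ 2 = 1 := by
    have h1 := A.det_coe
    rw [Matrix.det_fin_two] at h1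
    have h4 : (A : Mat) 0 0 * (A : Mat) 1 1 - (A : Mat) 0 1 * (A : Mat) 1 0 = 1 := h1
    rw [h2, h3, Complex.mul_conj, Complex.mul_conj, Complex.normSq_eq_norm_sq,
      Complex.normSq_eq_norm_sq] at h4
    exact_mod_cast h4
  unfold den
  rw [h2, h3]
  intro h
  have h5 : conj ((A : Mat) 0 0) = -(conj ((A : Mat) 0 1) * z) := by
    linear_combination h
  have h6 : ‖(A : Mat) 0 0‖ = ‖(A : Mat) 0 1‖ * ‖z‖ := by
    rw [← RCLike.norm_conj ((A : Mat) 0 0), h5, norm_neg, norm_mul, RCLike.norm_conj]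
  have h7 := norm_nonneg ((A : Mat) 0 1)
  have h8 := norm_nonneg z
  have h9 : ‖(A : Mat) 0 1‖ * ‖z‖ ≤ ‖(A : Mat) 0 1‖ := mul_le_of_le_one_right h7 hz.le
  rw [h6] at hdet
  nlinarith [mul_nonneg h7 h8]

theorem dVEQ : St_VEQ := by
  intro hTGO hWOU hAFD hTFR hA1 hAIN hENL hDEF g hg s F0 hs hF0
  obtain ⟨C0, hC0, H1⟩ := hA1
  have tf := hTFR g
  have hpos : 0 < ar2 F0 := (hAIN _ s s hs.fu hs.fu tf F0 F0 hF0 hF0).2
  refine ⟨C0 / ar2 F0 ^ 2, by positivity, ?_⟩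
  intro φ k μ ρ hd
  obtain ⟨σ, hσ⟩ : ∃ σ : SurfaceGroup g →* SL, σ = s.comp φ.toMonoidHom := ⟨_, rfl⟩
  have hσa : ∀ γ, σ γ = s (φ γ) := fun γ => by rw [hσ]; rfl
  have hFu : Fuch σ := by
    refine ⟨fun γ => ?_, fun X => ?_, ?_⟩
    · rw [hσa]
      exact hs.fu.su _
    · have h1 := (hs.fu.discrete X).preimage (φ.injective.injOn)
      refine h1.subset fun γ hγ => ?_
      have h2 : Pool.Agent.Helper35.PM.hs (σ γ : Mat) ≤ X := hγ
      rw [hσa] at h2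
      exact h2
    · obtain ⟨r, hr, h1⟩ := hs.fu.cocompact
      refine ⟨r, hr, fun z hz => ?_⟩
      obtain ⟨γ, hγ⟩ := h1 z hz
      refine ⟨φ.symm γ, ?_⟩
      rw [hσa, MulEquiv.apply_symm_apply]
      exact hγ
  have hTM : TM σ ρ (nq μ) := by
    refine ⟨hFu, (nq μ).isHomeomorph, fun γ z => ?_⟩
    have h1 := hd.eqv γ
    rw [hσa]
    exact ⟨h1.1 z, h1.2.1 z⟩
  obtain ⟨hGood, -, hinn, hout⟩ := hTGO _ σ ρ _ hTM
  obtain ⟨τ, G, hOS⟩ := hWOU _ ρ hGood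
  obtain ⟨-, -, ⟨F', r, -, hF', -⟩, -⟩ := hAFD _ τ hOS.fuch tf
  have hFσ : FDOn (ad σ) (Metric.ball 0 1) F0 := by
    refine ⟨hF0.mD, hF0.sub, fun z hz => ?_⟩
    obtain ⟨y, hy1, hy2⟩ := hF0.ex z hz
    refine ⟨φ.symm y, ?_, fun γ hγ => ?_⟩
    · show mob (σ (φ.symm y)) z ∈ F0
      rw [hσa, MulEquiv.apply_symm_apply]
      exact hy1
    · have h1 : mob (σ γ) z ∈ F0 := hγ
      rw [hσa] at h1
      have h2 := hy2 (φ γ) h1
      rw [← h2, MulEquiv.symm_apply_apply]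
  have har : ar2 F0 = ar2 F' := (hAIN _ σ τ hFu hOS.fuch tf F0 F' hFσ hF').1
  have hFB : FDOn (fun γ z => mob (ρ γ) z) (inn (Lam ρ)) (nq μ '' F0) := by
    rw [hinn]
    refine ⟨(nq μ).measurableEmbedding.measurableSet_image.2 hF0.mD, image_mono hF0.sub, ?_⟩
    rintro _ ⟨z, hz, rfl⟩
    have hz' : ‖z‖ < 1 := by simpa using hz
    have key : ∀ γ, mob (ρ γ) (nq μ z) = nq μ (mob (σ γ) z) := by
      intro γ
      exact ((hTM.eq γ z).2 (den_ne _ (hFu.su γ) z hz')).symm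
    obtain ⟨y, hy1, hy2⟩ := hFσ.ex z hz
    refine ⟨y, ?_, fun γ hγ => ?_⟩
    · show mob (ρ y) (nq μ z) ∈ nq μ '' F0
      rw [key]
      exact mem_image_of_mem _ hy1
    · have h1 : mob (ρ γ) (nq μ z) ∈ nq μ '' F0 := hγ
      rw [key, (nq μ).injective.mem_set_image] at h1
      exact hy2 γ h1
  obtain ⟨-, hmain⟩ := H1 _ ρ τ G tf hGood hOS F' (nq μ '' F0) hF' hFB
  have hE : ∫⁻ a in nq μ '' F0, ∫⁻ ξ in out (Lam ρ), ENNReal.ofReal (1 / ‖ξ - a‖ ^ 4) =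
      En F0 μ := by
    unfold En
    rw [hout]
    simp only [one_div, inv_pow]
  rw [hE, ← har] at hmain
  have hent : 1 ≤ ent ρ := hENL _ ρ (hDEF g s φ k μ ρ hs hd)
  have hE0 : 0 ≤ (En F0 μ).toReal ^ 2 := by positivity
  have h3 : 2 - ent ρ ≤ C0 / ar2 F0 ^ 2 * (En F0 μ).toReal ^ 2 := by
    have h4 : C0 / ar2 F0 ^ 2 * (En F0 μ).toReal ^ 2 = C0 * (En F0 μ).toReal ^ 2 / ar2 F0 ^ 2 := by
      ring
    rw [h4, le_div_iff₀ (by positivity)]
    exact hmain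
  unfold vv
  rw [div_le_iff₀ (by linarith)]
  have h5 : 0 ≤ C0 / ar2 F0 ^ 2 * (En F0 μ).toReal ^ 2 := by positivity
  nlinarith

end Pool.Agent.Helper36.QT
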